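import Pool.Agent.MP_18f1d7_lc.Main

/-!
# MP_18f1d7_lc: the completely characterizable cardinals are closed under exponentiation
-/

namespace Pool.Agent.Results.MP_18f1d7_lc.ExponentiationClosed

universe u

open Pool.Agent.MP_18f1d7_lc

/-- For all completely characterizable cardinals `κ` and `l`, the cardinal `l ^ κ` is completely
characterizable. -/
theorem result : ∀ κ l : Cardinal.{u}, κ ∈ Ch.{u} → l ∈ Ch.{u} → l ^ κ ∈ Ch.{u} :=
  fun κ l hκ hl => main κ l hκ hl

end Pool.Agent.Results.MP_18f1d7_lc.ExponentiationClosed
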